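import Mathlib

/-!
# Numerical inequalities for the gain along a chain
-/

set_option autoImplicit false

namespace Pool.Agent.H87.GR

open Finset Real

theorem two_term (Θ z : ℝ) (h0 : 0 < Θ) (h1 : Θ < 1) :
    Real.binEntropy Θ ≤ log (Real.exp (Θ * z) + Real.exp ((Θ - 1) * z)) := by
  set S := Real.exp (Θ * z) + Real.exp ((Θ - 1) * z) with hS
  have hS0 : 0 < S := by positivity
  have h1' : 0 < 1 - Θ := by linarith
  have e1 := Real.log_le_sub_one_of_pos
    (show 0 < Real.exp (Θ * z) / (S * (1 - Θ)) by positivity)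
  have e2 := Real.log_le_sub_one_of_pos
    (show 0 < Real.exp ((Θ - 1) * z) / (S * Θ) by positivity)
  rw [Real.log_div (by positivity) (by positivity), Real.log_exp,
    Real.log_mul hS0.ne' h1'.ne'] at e1
  rw [Real.log_div (by positivity) (by positivity), Real.log_exp,
    Real.log_mul hS0.ne' h0.ne'] at e2
  have f1 := mul_le_mul_of_nonneg_left e1 h1'.le
  have f2 := mul_le_mul_of_nonneg_left e2 h0.le
  have g1 : (1 - Θ) * (Real.exp (Θ * z) / (S * (1 - Θ)) - 1) =
      Real.exp (Θ * z) / S - (1 - Θ) := by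
    field_simp
  have g2 : Θ * (Real.exp ((Θ - 1) * z) / (S * Θ) - 1) =
      Real.exp ((Θ - 1) * z) / S - Θ := by
    field_simp
  rw [g1] at f1
  rw [g2] at f2
  have g3 : Real.exp (Θ * z) / S + Real.exp ((Θ - 1) * z) / S = 1 := by
    rw [← add_div, div_self hS0.ne']
  rw [Real.binEntropy, Real.log_inv, Real.log_inv]
  nlinarith

theorem sum_ge_two (Θ z : ℝ) (h0 : 1 / 2 ≤ Θ) (n : ℕ) (hn : n = ⌊4 * Θ⌋₊) :
    2 ≤ ∑ r ∈ Finset.range (n + 1), Real.exp ((Θ - r) * z) ∧
      Θ ≤ ∑ r ∈ Finset.range (n + 1), Real.exp ((Θ - r) * z) := by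
  have hn2 : 2 ≤ n := by
    rw [hn]
    exact Nat.le_floor (by push_cast; linarith)
  have hn3 : 4 * Θ < n + 1 := by
    rw [hn]
    exact Nat.lt_floor_add_one _
  have hpos : ∀ r ∈ Finset.range (n + 1), 0 ≤ Real.exp ((Θ - (r : ℝ)) * z) :=
    fun r _ => (Real.exp_pos _).le
  rcases le_or_gt 0 z with hz | hz
  · constructor
    · have h1 : Finset.range 2 ⊆ Finset.range (n + 1) := Finset.range_subset_range.2 (by omega)
      have h2 := Finset.sum_le_sum_of_subset_of_nonneg h1 (fun r hr _ => hpos r hr)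
      refine le_trans ?_ h2
      rw [Finset.sum_range_succ, Finset.sum_range_one]
      have h3 := Real.add_one_le_exp ((Θ - ((0 : ℕ) : ℝ)) * z)
      have h4 := Real.add_one_le_exp ((Θ - ((1 : ℕ) : ℝ)) * z)
      push_cast at h3 h4 ⊢
      nlinarith
    · have hfl : ⌊Θ⌋₊ ≤ n := by
        rw [hn]
        exact Nat.floor_le_floor (by linarith)
      have h1 : Finset.range (⌊Θ⌋₊ + 1) ⊆ Finset.range (n + 1) :=
        Finset.range_subset_range.2 (by omega)
      have h2 := Finset.sum_le_sum_of_subset_of_nonneg h1 (fun r hr _ => hpos r hr)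
      refine le_trans ?_ h2
      have h3 : ∑ _r ∈ Finset.range (⌊Θ⌋₊ + 1), (1 : ℝ) ≤
          ∑ r ∈ Finset.range (⌊Θ⌋₊ + 1), Real.exp ((Θ - (r : ℝ)) * z) := by
        refine Finset.sum_le_sum fun r hr => ?_
        apply Real.one_le_exp
        apply mul_nonneg _ hz
        have h4 : r ≤ ⌊Θ⌋₊ := by
          have := Finset.mem_range.1 hr
          omega
        have h5 : (r : ℝ) ≤ ⌊Θ⌋₊ := by exact_mod_cast h4
        have h6 : (⌊Θ⌋₊ : ℝ) ≤ Θ := Nat.floor_le (by linarith)
        linarith
      refine le_trans ?_ h3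
      rw [Finset.sum_const, Finset.card_range, nsmul_eq_mul, mul_one]
      push_cast
      have := Nat.lt_floor_add_one Θ
      linarith
  · have hc : ⌈Θ⌉₊ ≤ n := by
      apply Nat.ceil_le.2
      linarith
    have hc2 : (⌈Θ⌉₊ : ℝ) < Θ + 1 := Nat.ceil_lt_add_one (by linarith)
    have h1 : Finset.Ico ⌈Θ⌉₊ (n + 1) ⊆ Finset.range (n + 1) := by
      intro r hr
      exact Finset.mem_range.2 (Finset.mem_Ico.1 hr).2
    have h2 := Finset.sum_le_sum_of_subset_of_nonneg h1 (fun r hr _ => hpos r hr)
    have h3 : ∑ _r ∈ Finset.Ico ⌈Θ⌉₊ (n + 1), (1 : ℝ) ≤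
        ∑ r ∈ Finset.Ico ⌈Θ⌉₊ (n + 1), Real.exp ((Θ - (r : ℝ)) * z) := by
      refine Finset.sum_le_sum fun r hr => ?_
      apply Real.one_le_exp
      apply mul_nonneg_of_nonpos_of_nonpos _ hz.le
      have h4 : Θ ≤ r := Nat.ceil_le.1 (Finset.mem_Ico.1 hr).1
      linarith
    rw [Finset.sum_const, Nat.card_Ico, nsmul_eq_mul, mul_one] at h3
    have h5 : ((n + 1 - ⌈Θ⌉₊ : ℕ) : ℝ) = n + 1 - ⌈Θ⌉₊ := by
      rw [Nat.cast_sub (by omega)]
      push_cast
      ring
    rw [h5] at h3
    have h6 : (2 : ℝ) ≤ n + 1 - ⌈Θ⌉₊ ∧ Θ ≤ n + 1 - ⌈Θ⌉₊ := by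
      rcases le_or_gt Θ 1 with h7 | h7
      · have h8 : ⌈Θ⌉₊ ≤ 1 := Nat.ceil_le.2 (by push_cast; exact h7)
        have h9 : (⌈Θ⌉₊ : ℝ) ≤ 1 := by exact_mod_cast h8
        have h10 : (2 : ℝ) ≤ n := by exact_mod_cast hn2
        constructor <;> linarith
      · constructor <;> linarith
    exact ⟨h6.1.trans (h3.trans h2), h6.2.trans (h3.trans h2)⟩

theorem sq_le_exp (L : ℝ) (hL : 0 ≤ L) : L ^ 2 ≤ 5 / 2 * Real.exp (L / 2) := by
  have h1 := Real.add_one_le_exp (L / 4 - 1)
  have h2 : L / 4 ≤ Real.exp (L / 4 - 1) := by linarith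
  have h3 : Real.exp (L / 4 - 1) = Real.exp (L / 4) / Real.exp 1 := Real.exp_sub _ _
  rw [h3, le_div_iff₀ (Real.exp_pos _)] at h2
  have h4 := Real.exp_one_gt_d9
  have h5 : L / 4 * 2.7 ≤ Real.exp (L / 4) := by
    have : L / 4 * 2.7 ≤ L / 4 * Real.exp 1 :=
      mul_le_mul_of_nonneg_left (by linarith) (by linarith)
    linarith
  have h6 : Real.exp (L / 2) = Real.exp (L / 4) ^ 2 := by
    rw [← Real.exp_nat_mul]
    congr 1
    push_cast
    ring
  rw [h6]
  have h7 : (L / 4 * 2.7) ^ 2 ≤ Real.exp (L / 4) ^ 2 := by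
    apply pow_le_pow_left₀ (by positivity) h5
  norm_num at h7 ⊢
  nlinarith

theorem bin_ge (x : ℝ) (h0 : 0 < x) (h1 : x < 1 / 2) :
    x * (-log x + 1 / 2) ≤ Real.binEntropy x := by
  rw [Real.binEntropy, Real.log_inv, Real.log_inv]
  have h2 : log (1 - x) ≤ -x := by
    have := Real.log_le_sub_one_of_pos (show 0 < 1 - x by linarith)
    linarith
  have h3 : (1 - x) * x ≤ (1 - x) * -log (1 - x) :=
    mul_le_mul_of_nonneg_left (by linarith) (by linarith)
  nlinarith

/-- The numerical inequality for the gain. -/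
theorem num_final (N : ℝ) (hN : 1 ≤ N) (s : ℝ) (hs : 2 ≤ s) (lam : ℝ) (hlam0 : 0 ≤ lam)
    (hlamN : lam ≤ N) (hlamL : lam ≤ Real.exp (s / 2) * log N) (x : ℝ) (hx : 0 < x)
    (Φ : ℝ) (h1 : x < 1 / 2 → Real.binEntropy x ≤ Φ)
    (h2 : 1 / 2 ≤ x → log 2 ≤ Φ ∧ log x ≤ Φ) :
    1 / 5 * lam * (x * (log (N / x) - s)) ≤ N * Φ := by
  have hN0 : 0 < N := by linarith
  obtain ⟨L, hL⟩ : ∃ L, L = log N := ⟨_, rfl⟩
  have hL0 : 0 ≤ L := hL ▸ Real.log_nonneg hN
  have hNe : N = Real.exp L := by rw [hL, Real.exp_log hN0]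
  rw [← hL] at hlamL
  rcases lt_or_ge x (1 / 2) with hx2 | hx2
  · have h3 := h1 hx2
    have h4 := bin_ge x hx hx2
    have hlx : 0 ≤ -log x := by
      have := Real.log_nonpos hx.le (by linarith)
      linarith
    rw [Real.log_div hN0.ne' hx.ne', ← hL]
    have h5 : 1 / 5 * lam * (L - s) ≤ N / 2 := by
      rcases le_or_gt L s with h6 | h6
      · have : 1 / 5 * lam * (L - s) ≤ 0 :=
          mul_nonpos_of_nonneg_of_nonpos (by positivity) (by linarith)
        linarith
      · have h7 : lam * (L - s) ≤ Real.exp (L / 2) * L * L := by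
          have h8 : lam ≤ Real.exp (L / 2) * L :=
            hlamL.trans (mul_le_mul_of_nonneg_right
              (Real.exp_le_exp.2 (by linarith)) hL0)
          exact mul_le_mul h8 (by linarith) (by linarith) (by positivity)
        have h8 := sq_le_exp L hL0
        have h9 : Real.exp (L / 2) * L * L ≤ 5 / 2 * N := by
          have h10 : N = Real.exp (L / 2) * Real.exp (L / 2) := by
            rw [← Real.exp_add, hNe]
            congr 1
            ring
          have h11 := mul_le_mul_of_nonneg_left h8 (Real.exp_pos (L / 2)).le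
          rw [h10]
          nlinarith
        linarith
    have h6 : 1 / 5 * lam * (-log x) ≤ N * (-log x) :=
      mul_le_mul_of_nonneg_right (by linarith) hlx
    have h7 : 1 / 5 * lam * (L - log x - s) ≤ N * (-log x + 1 / 2) := by
      have : 1 / 5 * lam * (L - log x - s) = 1 / 5 * lam * (L - s) +
        1 / 5 * lam * (-log x) := by ring
      rw [this]
      linarith
    have h8 := mul_le_mul_of_nonneg_left h7 hx.le
    have h9 := mul_le_mul_of_nonneg_left (h4.trans h3) hN0.le
    nlinarith
  · obtain ⟨h3, h4⟩ := h2 hx2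
    have hΦ : 0 ≤ Φ := (Real.log_nonneg (by norm_num)).trans h3
    have hl2 := Real.log_two_gt_d9
    obtain ⟨w, hw⟩ : ∃ w, w = log (N / x) - s := ⟨_, rfl⟩
    rw [← hw]
    rcases le_or_gt w 0 with hw0 | hw0
    · have : 1 / 5 * lam * (x * w) ≤ 0 :=
        mul_nonpos_of_nonneg_of_nonpos (by positivity)
          (mul_nonpos_of_nonneg_of_nonpos hx.le hw0)
      have := mul_nonneg hN0.le hΦ
      linarith
    · have hy : N / x = Real.exp (s + w) := by
        rw [hw, show s + (log (N / x) - s) = log (N / x) by ring,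
          Real.exp_log (by positivity)]
      have hNx : N = x * Real.exp (s + w) := by
        rw [← hy]
        field_simp
      have hlx : log x = L - (s + w) := by
        have h5 : log (N / x) = L - log x := by
          rw [Real.log_div hN0.ne' hx.ne', hL]
        rw [hw, h5]
        ring
      have key : 1 / 5 * lam * w ≤ Real.exp (s + w) * Φ := by
        rcases le_or_gt (L / 2) (s + w) with h5 | h5
        · -- `Φ ≥ log 2`
          have h6 : lam * w ≤ Real.exp (s / 2) * (2 * (s + w)) * w := by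
            refine mul_le_mul_of_nonneg_right ?_ hw0.le
            exact hlamL.trans (mul_le_mul_of_nonneg_left (by linarith) (Real.exp_pos _).le)
          obtain ⟨u, hu⟩ : ∃ u, u = s / 2 + w := ⟨_, rfl⟩
          have hu0 : 0 ≤ u := by linarith
          have h7 : u ^ 2 ≤ 5 / 8 * Real.exp u := by
            have := sq_le_exp (2 * u) (by linarith)
            rw [show 2 * u / 2 = u by ring] at this
            nlinarith
          have h8 : (s + w) * w ≤ 2 * u ^ 2 := by
            have h9 : s + w ≤ 2 * u := by linarith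
            have h10 : w ≤ u := by linarith
            calc (s + w) * w ≤ (2 * u) * u := mul_le_mul h9 h10 hw0.le (by linarith)
              _ = 2 * u ^ 2 := by ring
          have h9 : Real.exp (s + w) = Real.exp (s / 2) * Real.exp u := by
            rw [← Real.exp_add, hu]
            congr 1
            ring
          rw [h9]
          have h10 : Real.exp (s / 2) * Real.exp u * (69 / 100) ≤
              Real.exp (s / 2) * Real.exp u * Φ :=
            mul_le_mul_of_nonneg_left (by linarith) (by positivity)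
          have h11 : Real.exp (s / 2) * (2 * (s + w)) * w ≤
              Real.exp (s / 2) * (5 / 2 * Real.exp u) := by
            have : Real.exp (s / 2) * (2 * (s + w)) * w =
              Real.exp (s / 2) * (2 * ((s + w) * w)) := by ring
            rw [this]
            refine mul_le_mul_of_nonneg_left ?_ (Real.exp_pos _).le
            nlinarith
          have h12 : 0 < Real.exp (s / 2) * Real.exp u := by positivity
          nlinarith
        · -- `Φ ≥ L / 2`
          have h6 : L / 2 ≤ Φ := by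
            rw [hlx] at h4
            linarith
          have h7 : Real.exp (s + w) * (L / 2) ≤ Real.exp (s + w) * Φ :=
            mul_le_mul_of_nonneg_left h6 (Real.exp_pos _).le
          have h8 : lam * w ≤ Real.exp (s / 2) * L * w :=
            mul_le_mul_of_nonneg_right hlamL hw0.le
          have h9 : w ≤ Real.exp w := by
            have := Real.add_one_le_exp w
            linarith
          have h10 : Real.exp (s / 2) ≤ Real.exp s := Real.exp_le_exp.2 (by linarith)
          have h11 : Real.exp (s / 2) * w ≤ Real.exp (s + w) := by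
            rw [Real.exp_add]
            exact mul_le_mul h10 h9 hw0.le (Real.exp_pos _).le
          have h12 := mul_le_mul_of_nonneg_left h11 hL0
          nlinarith
      have h6 := mul_le_mul_of_nonneg_left key hx.le
      calc 1 / 5 * lam * (x * w) = x * (1 / 5 * lam * w) := by ring
        _ ≤ x * (Real.exp (s + w) * Φ) := h6
        _ = N * Φ := by rw [hNx]; ring

end Pool.Agent.H87.GR
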